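import Pool.Agent.H.MP_1fb4c7_an.B

set_option autoImplicit false

namespace Pool.Agent.Results.MP_1fb4c7_an.No

open Pool.Agent.H.MP_1fb4c7_an

theorem result : ∃ (A : Type) (_ : CStarAlgebra A), TopologicalSpace.SeparableSpace A ∧
    (T A).Nonempty ∧ IsCompact (T A) ∧ ∃ φ : (ℕ → A) → ℂ, IsTr φ ∧
      ∀ ε > 0, ∃ x, Cau x ∧ (∀ j, ‖x j‖ ≤ 1 ∧ n2 (x j) ≤ ε) ∧ φ x = 1 := main

end Pool.Agent.Results.MP_1fb4c7_an.No
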